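import Pool.Agent.H92.KST.TargetsX

/-! Row SYMX of the board `kst_modules` (project KEW, MP_7b949a_ag). -/

set_option autoImplicit false

namespace Pool.Agent.H67.KST

open Pool.Agent.H62.MK Pool.Agent.H19.KN Pool.Agent.H92.KST

universe u

open Classical in
/-- The symbol `{f, g} · w` modulo a subgroup. -/
noncomputable def ss {F : Type u} [Field F] {m : ℕ} (w : MilnorK F m)
    (Q : AddSubgroup (MilnorK F (m + 2))) (f g : F) : MilnorK F (m + 2) ⧸ Q :=
  if h : f ≠ 0 ∧ g ≠ 0 then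
    QuotientAddGroup.mk (cup (Units.mk0 f h.1) (cup (Units.mk0 g h.2) w)) else 0

theorem ss_eq {F : Type u} [Field F] {m : ℕ} (w : MilnorK F m)
    (Q : AddSubgroup (MilnorK F (m + 2))) (f g : F) (hf : f ≠ 0) (hg : g ≠ 0) :
    ss w Q f g = QuotientAddGroup.mk (cup (Units.mk0 f hf) (cup (Units.mk0 g hg) w)) :=
  dif_pos ⟨hf, hg⟩

theorem pf_SYMX : T_SYMX.{u} := by
  intro F _ q m w
  refine ⟨{ s := ss w _
            mul_left := ?_
            mul_right := ?_
            st := ?_ }, ?_⟩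
  · intro a b c ha hb hc
    rw [ss_eq _ _ _ _ (mul_ne_zero ha hb) hc, ss_eq _ _ _ _ ha hc, ss_eq _ _ _ _ hb hc,
      ← QuotientAddGroup.mk_add, ← cup_mul]
    congr 2
    exact congrArg cup (Units.ext rfl)
  · intro a b c ha hb hc
    rw [ss_eq _ _ _ _ ha (mul_ne_zero hb hc), ss_eq _ _ _ _ ha hb, ss_eq _ _ _ _ ha hc,
      ← QuotientAddGroup.mk_add, ← map_add, ← cup_mul]
    congr 3
    exact congrArg cup (Units.ext rfl)
  · intro a b ha hb hab
    rw [ss_eq _ _ _ _ ha hb, cup_cup_eq_zero _ _ (by simpa using hab)]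
    rfl
  · intro f g
    have h := ss_eq w (zsmulAddGroupHom (q : ℤ) :
        MilnorK F (m + 2) →+ MilnorK F (m + 2)).range (f : F) (g : F) f.ne_zero g.ne_zero
    rw [Units.mk0_val, Units.mk0_val] at h
    exact h

end Pool.Agent.H67.KST
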